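import Pool.Agent.Lib.GP.Stm2

/-!
# Gross-Prasad periods on definite orthogonal groups: deep levels (author helper31)
-/

set_option autoImplicit false

open Matrix

noncomputable section

namespace Pool.Agent.GP

variable {N n : ℕ} {Q : Matrix (Fin N) (Fin N) ℚ}

/-- `a ≡ b mod m`: `a = b + m z` with `z` integral at all places. -/
def Cg (m : ℕ) (a b : AQ) : Prop := ∃ z : AQ, Itg z ∧ a = b + (m : AQ) * z

/-- `K` is **a level of depth `m`** in `K0`: an open compact subgroup of `K0` which contains all `k ∈ K0` with `k ≡ 1 mod m`, and such that `k e ≡ e mod m` for all `k ∈ K`. -/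
def Deep (K0 K : Subgroup (SO Q AQ)) (e : Fin N → ℚ) (m : ℕ) : Prop :=
  CO K ∧ K ≤ K0 ∧ (∀ k ∈ K0, (∀ i j, Cg m (mat k i j) ((1 : Matrix (Fin N) (Fin N) AQ) i j)) → k ∈ K) ∧
    ∀ k ∈ K, ∀ i, Cg m ((mat k *ᵥ ve e AQ) i) (ve e AQ i)

/-- `φ'` has at least `R` **partners away from `m`**: there are automorphic forms `φ_j`, `j < r`, `R ≤ r`, on `G` of weight `ρ` and level `K`, whose period with `φ'` is not zero, which are eigenforms of all `T_p` with `p > p0` not dividing `m`, with pairwise different systems of eigenvalues. -/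
def PartnersA (K : Subgroup (SO Q AQ)) {e : Fin N → ℚ} (ρ : MRep (SO Q ℝ) n) (p0 m : ℕ)
    (φ' : HH Q e ℝ → HH Q e AQ → ℂ) (R : ℝ) : Prop :=
  ∃ (r : ℕ) (φ : Fin r → SO Q ℝ → SO Q AQ → ℂ) (lam : Fin r → Nat.Primes → ℝ), R ≤ r ∧
    ∀ j, AutG K ρ (φ j) ∧ Pd K (φ j) φ' ≠ 0 ∧
      (∀ p : Nat.Primes, (p0 < (p : ℕ) ∧ ¬ (p : ℕ) ∣ m) → TK K p (φ j) = (lam j p : ℂ) • φ j) ∧
      ∀ i, i ≠ j → ∃ p : Nat.Primes, (p0 < (p : ℕ) ∧ ¬ (p : ℕ) ∣ m) ∧ lam i p ≠ lam j p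

end Pool.Agent.GP
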