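import Pool.Agent.Lib.GP.Bri
import Pool.Agent.Lib.GP.DL.Stm
import Pool.Agent.Lib.GP.DL.Asm

/-!
# The light form of GPD (author helper31)
-/

set_option autoImplicit false

open IsDedekindDomain Matrix MeasureTheory

noncomputable section

namespace Pool.Agent.GP

/-- The invariant matrix gives an invariant bilinear form. -/
private theorem pair_inv'' {G H : Type} [Group G] [TopologicalSpace G] [Group H] [TopologicalSpace H] {n m : ℕ}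
    (ρ : MRep G n) (σ : MRep H m) (i : H →* G) (L : Matrix (Fin n) (Fin m) ℂ)
    (hL : ∀ x, (ρ.hom (i x))ᵀ * L * σ.hom x = L) (x : H) (v : Fin n → ℂ) (w : Fin m → ℂ) :
    (ρ.hom (i x) *ᵥ v) ⬝ᵥ (L *ᵥ (σ.hom x *ᵥ w)) = v ⬝ᵥ (L *ᵥ w) := by
  have h1 : (ρ.hom (i x) *ᵥ v) = v ᵥ* (ρ.hom (i x))ᵀ := (vecMul_transpose _ _).symm
  rw [h1, ← dotProduct_mulVec, mulVec_mulVec, mulVec_mulVec, hL x]

theorem gpDLight (hD : C_GPD) (N : ℕ) (Q : Matrix (Fin N) (Fin N) ℚ) (e : Fin N → ℚ) (K0 : Subgroup (SO Q AQ))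
    (hN : 3 ≤ N) (hQ : PQ Q) (he : e ≠ 0) (hK0 : CO K0) :
    ∃ (p0 m0 : ℕ) (c : ℝ), 0 < c ∧ ∀ (m : ℕ) (K : Subgroup (SO Q AQ)), m0 ≤ m → Deep K0 K e m →
      ∀ (D d : ℕ) (ρ : MRep (SO Q ℝ) D) (σ : MRep (HH Q e ℝ) d), Pairing ρ σ (iH Q e ℝ) →
        ∀ ψ, AutH K σ ψ → ψ ≠ 0 → PartnersA K ρ p0 m ψ (c * m / Real.log m) := by
  obtain ⟨p0, m0, c, -, hc, h⟩ := hD N Q e K0 hN hQ he hK0.1 hK0.2
  refine ⟨p0, m0, c, hc, ?_⟩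
  intro m K hm hK D d ρ σ hP ψ hψ hne
  obtain ⟨u, hu1, hu2, hu3⟩ := tBr.1 (SO Q ℝ) D ρ
  obtain ⟨s, hs1, hs2, hs3⟩ := tBr.1 (HH Q e ℝ) d σ
  obtain ⟨L, hL, hLi⟩ := hP
  obtain ⟨l, hl1, hl2⟩ := tBr.2 D d L
  have hinv : ∀ (x : Hp Q e ℝ) (v : EuclideanSpace ℂ (Fin D)) (w : EuclideanSpace ℂ (Fin d)),
      l (u.act x.1 v) (s.act x w) = l v w := by
    intro x v w
    rw [hl1, hl1]
    have e1 : (u.act x.1 v).ofLp = ρ.hom (iH Q e ℝ x) *ᵥ v.ofLp := hu1 x.1 v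
    have e2 : (s.act x w).ofLp = σ.hom x *ᵥ w.ofLp := hs1 x w
    rw [e1, e2]
    exact pair_inv'' ρ σ (iH Q e ℝ) L hLi x _ _
  obtain ⟨r, φ, lam, h1, h2, h3, h4, h5⟩ := h m K hm hK.1.1 hK.1.2 hK.2.1 hK.2.2.1 hK.2.2.2
    (EuclideanSpace ℂ (Fin D)) (EuclideanSpace ℂ (Fin d)) u s l hs2 (hl2 hL) hinv ψ
    ((autH_iff K σ s hs3 ψ).1 hψ) hne
  refine ⟨r, φ, lam, h1, fun j => ⟨(autG_iff K ρ u hu3 (φ j)).2 (h2 j), ?_, ?_, ?_⟩⟩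
  · exact (pd_eq K (φ j) ψ).trans_ne (h5 j)
  · intro p hp
    exact (tk_eq K p (φ j)).trans (h3 j p hp)
  · intro i hi
    obtain ⟨p, hp, hne⟩ := h4 i j hi
    exact ⟨p, hp, hne⟩

end Pool.Agent.GP
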