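import Pool.Agent.Lib.GP.DL.Spec

set_option autoImplicit false

open IsDedekindDomain Matrix MeasureTheory

noncomputable section

namespace Pool.Agent.GP

private lemma GdT_valZ (v : HeightOneSpectrum ℤ) (c : ℤ) :
    Valued.v (c : v.adicCompletion ℚ) = v.intValuation c := by
  have h1 : (c : v.adicCompletion ℚ) = algebraMap ℚ (v.adicCompletion ℚ) (c : ℚ) :=
    (map_intCast _ _).symm
  have h2 : Valued.v (algebraMap ℚ (v.adicCompletion ℚ) (c : ℚ)) = v.valuation ℚ (c : ℚ) :=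
    HeightOneSpectrum.valuedAdicCompletion_eq_valuation' v (c : ℚ)
  rw [h1, h2]
  exact v.valuation_of_algebraMap (K := ℚ) c

/-- A natural number prime to `p` is a unit at `p`. -/
private lemma GdT_unit (p : Nat.Primes) {m : ℕ} (hm : ¬ (p : ℕ) ∣ m) :
    Valued.v ((m : ℕ) : (vp p).adicCompletion ℚ) = 1 := by
  have h0 : ((m : ℕ) : (vp p).adicCompletion ℚ) = ((m : ℤ) : (vp p).adicCompletion ℚ) := by
    push_cast; rfl
  rw [h0, GdT_valZ]
  refine le_antisymm ((vp p).intValuation_le_one _) (not_lt.1 fun h => hm ?_)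
  rw [HeightOneSpectrum.intValuation_lt_one_iff_dvd] at h
  have h1 : (m : ℤ) ∈ (vp p).asIdeal := by
    rw [← Ideal.span_singleton_le_iff_mem]
    exact Ideal.le_of_dvd h
  have h2 : (m : ℤ) ∈ Ideal.span {((p : ℕ) : ℤ)} := h1
  rw [Ideal.mem_span_singleton] at h2
  exact_mod_cast h2

/-- A local element at `p` with integral entries is congruent to one modulo `m`, if `p` does not divide `m`. -/
private lemma GdT_cong {N : ℕ} (Q : Matrix (Fin N) (Fin N) ℚ) (p : Nat.Primes) {m : ℕ}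
    (hm : ¬ (p : ℕ) ∣ m) (y : Gp Q Af) (hy : y ∈ Loc Q p) (hyi : ∀ i j, y.1.1 i j ∈ Zh) (i j : Fin N) :
    ∃ z ∈ Zh, y.1.1 i j = (1 : Matrix (Fin N) (Fin N) Af) i j + (m : Af) * z := by
  have hm0 : m ≠ 0 := by
    rintro rfl
    exact hm (dvd_zero _)
  refine ⟨(y.1.1 i j - (1 : Matrix (Fin N) (Fin N) Af) i j) * algebraMap ℚ Af (m : ℚ)⁻¹, ?_, ?_⟩
  · intro v
    have h0 : ((y.1.1 i j - (1 : Matrix (Fin N) (Fin N) Af) i j) * algebraMap ℚ Af (m : ℚ)⁻¹) v =
        (ev v (y.1.1 i j) - ev v ((1 : Matrix (Fin N) (Fin N) Af) i j)) *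
          ev v (algebraMap ℚ Af (m : ℚ)⁻¹) := by
      rw [← map_sub, ← map_mul]
      rfl
    have h1v : ev v ((1 : Matrix (Fin N) (Fin N) Af) i j) =
        (1 : Matrix (Fin N) (Fin N) (v.adicCompletion ℚ)) i j := by
      by_cases h : i = j
      · subst h; rw [Matrix.one_apply_eq, Matrix.one_apply_eq, map_one]
      · rw [Matrix.one_apply_ne h, Matrix.one_apply_ne h, map_zero]
    rw [h0, h1v]
    by_cases hv : v = vp p
    · subst hv
      have h2 : ev (vp p) (algebraMap ℚ Af (m : ℚ)⁻¹) =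
          (((m : ℕ) : (vp p).adicCompletion ℚ))⁻¹ := by
        have h3 : ev (vp p) (algebraMap ℚ Af (m : ℚ)⁻¹) =
            algebraMap ℚ ((vp p).adicCompletion ℚ) (m : ℚ)⁻¹ := rfl
        rw [h3, map_inv₀, map_natCast]
      rw [h2, HeightOneSpectrum.mem_adicCompletionIntegers, map_mul, map_inv₀,
        GdT_unit p hm, inv_one, mul_one]
      refine le_trans (Valued.v.map_sub _ _) (max_le (hyi i j (vp p)) ?_)
      by_cases h : i = j
      · subst h; rw [Matrix.one_apply_eq, map_one]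
      · rw [Matrix.one_apply_ne h, map_zero]; exact zero_le
    · have h2 := hy v hv
      have h3 : (evG Q v y).1 i j = (1 : Matrix (Fin N) (Fin N) (v.adicCompletion ℚ)) i j := by
        rw [h2]; rfl
      have h4 : (evG Q v y).1 i j = ev v (y.1.1 i j) := rfl
      rw [← h4, h3, sub_self, zero_mul]
      exact Subring.zero_mem _
  · have hinv : (m : Af) * algebraMap ℚ Af (m : ℚ)⁻¹ = 1 := by
      have h1 : (m : Af) = algebraMap ℚ Af (m : ℚ) := (map_natCast _ _).symm
      rw [h1, ← map_mul, mul_inv_cancel₀ (by exact_mod_cast hm0), map_one]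
    linear_combination -(y.1.1 i j - (1 : Matrix (Fin N) (Fin N) Af) i j) * hinv

theorem tGdT : S_GdT := by
  intro N Q e K0 K m p hG hm hK H
  refine ⟨hG.odd, fun k hk => hG.k1 k (hK hk), ?_, hG.q1, hG.q2, hG.e1, hG.e2⟩
  intro y hy hyi
  exact H y (hG.k2 y hy hyi) (fun i j => GdT_cong Q p hm y hy hyi i j)

end Pool.Agent.GP
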