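import Pool.Agent.Lib.GP.DL.Spec

/-!
# Theorem GPD: no element of the transporters moves `e` (helper92)
-/

set_option autoImplicit false

open IsDedekindDomain Matrix MeasureTheory

noncomputable section

namespace Pool.Agent.GP

/-- The entries of the elements `c κ` and `κ` have bounded denominators. -/
private theorem NB_bound (h5 : C_AD5) {N : ℕ} (Q : Matrix (Fin N) (Fin N) ℚ) (e : Fin N → ℚ)
    (K0 : Subgroup (Gp Q Af)) (hc : IsCompact (K0 : Set (Gp Q Af))) (hf : Finite (ClH Q e K0)) :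
    ∃ M : ℕ, 0 < M ∧
      (∀ (c : ClH Q e K0), ∀ κ ∈ K0, ∀ i j, (M : Af) * ((Quotient.out c).1 * κ).1.1 i j ∈ Zh) ∧
      ∀ κ ∈ K0, ∀ i j, (M : Af) * κ.1.1 i j ∈ Zh := by
  have hS : IsCompact ((⋃ c : ClH Q e K0, (fun κ : Gp Q Af => (Quotient.out c).1 * κ) ''
      (K0 : Set (Gp Q Af))) ∪ (K0 : Set (Gp Q Af))) := by
    refine IsCompact.union (isCompact_iUnion fun c => ?_) hc
    exact hc.image (continuous_const.mul continuous_id)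
  obtain ⟨M, hM, hM1⟩ := h5 N Q _ hS
  refine ⟨M, hM, fun c κ hκ => ?_, fun κ hκ => hM1 κ (Or.inr hκ)⟩
  exact hM1 _ (Or.inl (Set.mem_iUnion.2 ⟨c, κ, hκ, rfl⟩))

/-- The rational orthogonal group preserves the norm of `e`. -/
private theorem NB_norm {N : ℕ} (Q : Matrix (Fin N) (Fin N) ℚ) (e : Fin N → ℚ) (γ : Gp Q ℚ) :
    (γ.1.1 *ᵥ e) ⬝ᵥ (Q *ᵥ (γ.1.1 *ᵥ e)) = e ⬝ᵥ (Q *ᵥ e) := by
  have h : γ.1.1ᵀ * Q.map (algebraMap ℚ ℚ) * γ.1.1 = Q.map (algebraMap ℚ ℚ) := γ.2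
  have hQ : Q.map (algebraMap ℚ ℚ) = Q := by ext i j; rfl
  rw [hQ] at h
  rw [Matrix.mulVec_mulVec, Matrix.dotProduct_mulVec, ← Matrix.vecMul_transpose]
  rw [show (e ᵥ* γ.1.1ᵀ) ᵥ* (Q * γ.1.1) = e ᵥ* (γ.1.1ᵀ * Q * γ.1.1) by
    rw [Matrix.vecMul_vecMul, Matrix.mul_assoc]]
  rw [h, ← Matrix.dotProduct_mulVec]

/-- **NB.** -/
theorem tNB : S_NB := by
  intro _ h5 hCN hq hv N Q e K0 hPQ hop hco
  have hf : Finite (ClH Q e K0) := hCN N Q e K0 hPQ hop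
  obtain ⟨M, hM, hM1, hM2⟩ := NB_bound h5 Q e K0 hco hf
  obtain ⟨C1, hC1, hv1⟩ := hv N Q e M hM
  obtain ⟨C, hC, hq1⟩ := hq N Q e C1 hPQ hC1
  refine ⟨C, hC, ?_⟩
  intro m K hK hKe p p' hp hp' hm y _ hyi y' hy' h hh h' hh' γ hγ
  have hm0 : 0 < m := by
    rcases Nat.eq_zero_or_pos m with h0 | h0
    · exact absurd (h0 ▸ dvd_zero _) hp
    · exact h0
  -- the element of the level group
  have hk : (h' * y')⁻¹ * (jG Q Af γ * (h * y)) ∈ K := hγ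
  set k : Gp Q Af := (h' * y')⁻¹ * (jG Q Af γ * (h * y)) with hkdef
  -- the class of `h'`
  have hcl := @Quotient.mk_out _ (clsSetoid (jH Q e Af) (KH Q e K0)) (⟨h', hh'⟩ : Hp Q e Af)
  obtain ⟨γ1, κ, hκ, hγ1⟩ := hcl
  set c : ClH Q e K0 := @Quotient.mk _ (clsSetoid (jH Q e Af) (KH Q e K0))
    (⟨h', hh'⟩ : Hp Q e Af) with hc
  have hκ0 : κ.1 ∈ K0 := hκ
  have hh1 : h' = jG Q Af γ1.1 * ((Quotient.out c).1 * κ.1) := by
    have := congrArg Subtype.val hγ1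
    rw [← mul_assoc]
    exact this
  set h2 : Gp Q Af := (Quotient.out c).1 * κ.1 with hh2
  have hh2m : h2 ∈ Hp Q e Af := (Hp Q e Af).mul_mem (Quotient.out c).2 κ.2
  -- the element `γ1⁻¹ γ`
  have hγ2 : jG Q Af (γ1.1⁻¹ * γ) = h2 * y' * k * y⁻¹ * h⁻¹ := by
    rw [map_mul, map_inv, hkdef, hh1]
    group
  obtain ⟨w, hw⟩ := hv1 m p p' hp hp' y⁻¹ hyi y' hy' h⁻¹ ((Hp Q e Af).inv_mem hh) h2 hh2m
    (hM1 c κ.1 hκ0) k (hM2 k (hK hk)) (hKe k hk) (γ1.1⁻¹ * γ) hγ2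
  have hve : ve e ℚ = e := by funext i; rfl
  have hcop : Nat.Coprime m ((p : ℕ) * (p' : ℕ)) :=
    Nat.Coprime.mul_right ((p.2.coprime_iff_not_dvd.2 hp).symm) ((p'.2.coprime_iff_not_dvd.2 hp').symm)
  have h3 := hq1 m ((p : ℕ) * (p' : ℕ)) ((γ1.1⁻¹ * γ).1.1 *ᵥ e) w hm0
    (Nat.mul_pos p.2.pos p'.2.pos) hcop hm (NB_norm Q e _) (fun i => by
      have := hw i
      rw [hve] at this
      exact this)
  have h4 : γ1.1⁻¹ * γ ∈ Hp Q e ℚ := by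
    change (γ1.1⁻¹ * γ).1.1 *ᵥ ve e ℚ = ve e ℚ
    rw [hve]
    exact h3
  have h5' : γ = γ1.1 * (γ1.1⁻¹ * γ) := by group
  rw [h5']
  exact (Hp Q e ℚ).mul_mem γ1.2 h4

end Pool.Agent.GP
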