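import Pool.Agent.Lib.GP.DL.Spec

/-!
# Theorem GPD: a vector congruent to `e` modulo `m` is `e`
-/

set_option autoImplicit false

open IsDedekindDomain Matrix MeasureTheory

noncomputable section

namespace Pool.Agent.GP

variable {N : ℕ}

private theorem NBq_cast (Q : Matrix (Fin N) (Fin N) ℚ) (x : Fin N → ℚ) :
    ((x ⬝ᵥ (Q *ᵥ x) : ℚ) : ℝ) =
      (fun i => (x i : ℝ)) ⬝ᵥ (Q.map (algebraMap ℚ ℝ) *ᵥ fun i => (x i : ℝ)) := by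
  simp only [dotProduct, mulVec, Matrix.map_apply, Rat.cast_sum, Rat.cast_mul, eq_ratCast]

private theorem NBq_pos {Q : Matrix (Fin N) (Fin N) ℚ} (hQ : PQ Q) (x : Fin N → ℚ) :
    0 ≤ x ⬝ᵥ (Q *ᵥ x) ∧ (x ⬝ᵥ (Q *ᵥ x) = 0 → x = 0) := by
  by_cases hx : x = 0
  · subst hx
    simp
  · have h1 : (fun i => (x i : ℝ)) ≠ 0 := by
      intro h
      apply hx
      funext i
      have h2 := congrFun h i
      simpa using h2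
    have h2 := hQ.2 _ h1
    rw [← NBq_cast] at h2
    have h3 : 0 < x ⬝ᵥ (Q *ᵥ x) := by exact_mod_cast h2
    exact ⟨h3.le, fun h => absurd h h3.ne'⟩

private theorem NBq_symm {Q : Matrix (Fin N) (Fin N) ℚ} (hQ : Q.IsSymm) (x y : Fin N → ℚ) :
    x ⬝ᵥ (Q *ᵥ y) = y ⬝ᵥ (Q *ᵥ x) := by
  rw [Matrix.dotProduct_mulVec, ← Matrix.mulVec_transpose, hQ.eq, dotProduct_comm]

private theorem NBq_add {Q : Matrix (Fin N) (Fin N) ℚ} (hQ : Q.IsSymm) (x y : Fin N → ℚ) :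
    (x + y) ⬝ᵥ (Q *ᵥ (x + y)) = x ⬝ᵥ (Q *ᵥ x) + 2 * (x ⬝ᵥ (Q *ᵥ y)) + y ⬝ᵥ (Q *ᵥ y) := by
  rw [Matrix.mulVec_add, add_dotProduct, dotProduct_add, dotProduct_add, NBq_symm hQ y x]
  ring

private theorem NBq_smul (Q : Matrix (Fin N) (Fin N) ℚ) (c : ℚ) (x y : Fin N → ℚ) :
    x ⬝ᵥ (Q *ᵥ (c • y)) = c * (x ⬝ᵥ (Q *ᵥ y)) := by
  rw [Matrix.mulVec_smul, dotProduct_smul, smul_eq_mul]

private theorem NBq_smul2 (Q : Matrix (Fin N) (Fin N) ℚ) (c : ℚ) (x : Fin N → ℚ) :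
    (c • x) ⬝ᵥ (Q *ᵥ (c • x)) = c ^ 2 * (x ⬝ᵥ (Q *ᵥ x)) := by
  rw [Matrix.mulVec_smul, dotProduct_smul, smul_dotProduct, smul_eq_mul, smul_eq_mul]
  ring

private theorem NBq_int (D : ℕ) (q : ℚ) (h : q.den ∣ D) : ∃ z : ℤ, (z : ℚ) = (D : ℚ) * q := by
  obtain ⟨k, rfl⟩ := h
  refine ⟨k * q.num, ?_⟩
  have h1 := Rat.mul_den_eq_num q
  push_cast
  rw [← h1]
  ring

private theorem NBq_den (Q : Matrix (Fin N) (Fin N) ℚ) (e : Fin N → ℚ) :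
    ∃ (D : ℕ) (R : Fin N → Fin N → ℤ) (E : Fin N → ℤ), 0 < D ∧
      (∀ i j, (R i j : ℚ) = (D : ℚ) * Q i j) ∧ ∀ i, (E i : ℚ) = (D : ℚ) * e i := by
  obtain ⟨D, hD⟩ : ∃ D : ℕ, D = (∏ i, ∏ j, (Q i j).den) * ∏ i, (e i).den := ⟨_, rfl⟩
  have h0 : 0 < D := by
    rw [hD]
    exact Nat.mul_pos (Finset.prod_pos fun i _ => Finset.prod_pos fun j _ => (Q i j).den_pos)
      (Finset.prod_pos fun i _ => (e i).den_pos)
  have h1 : ∀ i j, ∃ z : ℤ, (z : ℚ) = (D : ℚ) * Q i j := by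
    intro i j
    apply NBq_int
    rw [hD]
    refine Dvd.dvd.mul_right ?_ _
    exact (Finset.dvd_prod_of_mem (fun j => (Q i j).den) (Finset.mem_univ j)).trans
      (Finset.dvd_prod_of_mem (fun i => ∏ j, (Q i j).den) (Finset.mem_univ i))
  have h2 : ∀ i, ∃ z : ℤ, (z : ℚ) = (D : ℚ) * e i := by
    intro i
    apply NBq_int
    rw [hD]
    exact Dvd.dvd.mul_left (Finset.dvd_prod_of_mem (fun i => (e i).den) (Finset.mem_univ i)) _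
  choose R hR using h1
  choose E hE using h2
  exact ⟨D, R, E, h0, hR, hE⟩

/-- **NBq.** -/
theorem tNBq : S_NBq := by
  intro N Q e C1 hQ hC1
  obtain ⟨D, R, E, hD, hR, hE⟩ := NBq_den Q e
  obtain ⟨qe, hqe⟩ : ∃ qe, qe = e ⬝ᵥ (Q *ᵥ e) := ⟨_, rfl⟩
  have hqe0 : 0 ≤ qe := by
    rw [hqe]
    exact (NBq_pos hQ e).1
  refine ⟨⌈4 * (D : ℚ) ^ 2 * (C1 : ℚ) ^ 2 * qe⌉₊ + 1, by omega, ?_⟩
  intro m P v w hm hP hcop hC hv hw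
  have hD0 : (0 : ℚ) < D := by exact_mod_cast hD
  have hm0 : (0 : ℚ) < m := by exact_mod_cast hm
  have hP0 : (0 : ℚ) < P := by exact_mod_cast hP
  have hC10 : (0 : ℚ) < C1 := by exact_mod_cast hC1
  obtain ⟨u, hu⟩ : ∃ u : Fin N → ℚ, u = v - e := ⟨_, rfl⟩
  obtain ⟨W, hW⟩ : ∃ W : Fin N → ℚ, W = fun i => (w i : ℚ) := ⟨_, rfl⟩
  have hve : v = e + u := by
    rw [hu]
    abel
  have huW : ((C1 : ℚ) * P) • u = (m : ℚ) • W := by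
    funext i
    have h1 := hw i
    rw [hu, hW]
    simp only [Pi.smul_apply, Pi.sub_apply, smul_eq_mul]
    rw [← h1]
    push_cast
    ring
  -- the norm equation
  have h1 : 2 * (e ⬝ᵥ (Q *ᵥ u)) + u ⬝ᵥ (Q *ᵥ u) = 0 := by
    have h := NBq_add hQ.1 e u
    rw [← hve, hv] at h
    linarith
  have h2 : ((C1 : ℚ) * P) * (e ⬝ᵥ (Q *ᵥ u)) = m * (e ⬝ᵥ (Q *ᵥ W)) := by
    rw [← NBq_smul, huW, NBq_smul]
  have h3 : ((C1 : ℚ) * P) ^ 2 * (u ⬝ᵥ (Q *ᵥ u)) = (m : ℚ) ^ 2 * (W ⬝ᵥ (Q *ᵥ W)) := by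
    rw [← NBq_smul2, huW, NBq_smul2]
  have h4 : 2 * (C1 : ℚ) * P * (e ⬝ᵥ (Q *ᵥ W)) + m * (W ⬝ᵥ (Q *ᵥ W)) = 0 := by
    have h5 : (m : ℚ) * (2 * (C1 : ℚ) * P * (e ⬝ᵥ (Q *ᵥ W)) + m * (W ⬝ᵥ (Q *ᵥ W))) = 0 := by
      calc (m : ℚ) * (2 * (C1 : ℚ) * P * (e ⬝ᵥ (Q *ᵥ W)) + m * (W ⬝ᵥ (Q *ᵥ W)))
          = 2 * ((C1 : ℚ) * P) * (m * (e ⬝ᵥ (Q *ᵥ W))) + (m : ℚ) ^ 2 * (W ⬝ᵥ (Q *ᵥ W)) := by ring
        _ = ((C1 : ℚ) * P) ^ 2 * (2 * (e ⬝ᵥ (Q *ᵥ u)) + u ⬝ᵥ (Q *ᵥ u)) := by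
          rw [← h2, ← h3]
          ring
        _ = 0 := by rw [h1, mul_zero]
    exact (mul_eq_zero.1 h5).resolve_left hm0.ne'
  -- the integers
  obtain ⟨b, hb⟩ : ∃ b : ℤ, b = ∑ i, E i * ∑ j, R i j * w j := ⟨_, rfl⟩
  obtain ⟨s, hs⟩ : ∃ s : ℤ, s = ∑ i, w i * ∑ j, R i j * w j := ⟨_, rfl⟩
  have hbq : (b : ℚ) = (D : ℚ) ^ 2 * (e ⬝ᵥ (Q *ᵥ W)) := by
    rw [hb, hW]
    simp only [dotProduct, mulVec]
    push_cast
    rw [Finset.mul_sum]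
    refine Finset.sum_congr rfl fun i _ => ?_
    rw [hE, Finset.mul_sum, Finset.mul_sum, Finset.mul_sum]
    refine Finset.sum_congr rfl fun j _ => ?_
    rw [hR]
    ring
  have hsq : (s : ℚ) = (D : ℚ) * (W ⬝ᵥ (Q *ᵥ W)) := by
    rw [hs, hW]
    simp only [dotProduct, mulVec]
    push_cast
    rw [Finset.mul_sum]
    refine Finset.sum_congr rfl fun i _ => ?_
    rw [Finset.mul_sum, Finset.mul_sum, Finset.mul_sum]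
    refine Finset.sum_congr rfl fun j _ => ?_
    rw [hR]
    ring
  have h6 : 2 * (C1 : ℤ) * b * P = m * (-(D * s)) := by
    have h7 : 2 * (C1 : ℚ) * b * P = m * (-(D * s)) := by
      rw [hbq, hsq]
      linear_combination (D : ℚ) ^ 2 * h4
    exact_mod_cast h7
  have h8 : (m : ℤ) ∣ 2 * (C1 : ℤ) * b := by
    have h9 : (m : ℤ) ∣ 2 * (C1 : ℤ) * b * P := ⟨_, h6⟩
    have h10 : IsCoprime (m : ℤ) (P : ℤ) := Nat.isCoprime_iff_coprime.2 hcop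
    exact h10.dvd_of_dvd_mul_right h9
  -- the bound
  have h11 : |e ⬝ᵥ (Q *ᵥ u)| ≤ 2 * qe := by
    have ha := (NBq_pos hQ (v + e)).1
    have hb' := (NBq_pos hQ (v + -e)).1
    rw [NBq_add hQ.1] at ha hb'
    have hc : (v ⬝ᵥ (Q *ᵥ -e)) = -(v ⬝ᵥ (Q *ᵥ e)) := by
      rw [Matrix.mulVec_neg, dotProduct_neg]
    have hd : (-e ⬝ᵥ (Q *ᵥ -e)) = e ⬝ᵥ (Q *ᵥ e) := by
      rw [Matrix.mulVec_neg, dotProduct_neg, neg_dotProduct, neg_neg]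
    have he : e ⬝ᵥ (Q *ᵥ u) = v ⬝ᵥ (Q *ᵥ e) - qe := by
      rw [hu, Matrix.mulVec_sub, dotProduct_sub, NBq_symm hQ.1 e v, hqe]
    rw [hc, hd, hv, ← hqe] at hb'
    rw [hv, ← hqe] at ha
    rw [he, abs_le]
    constructor <;> linarith
  have h12 : |(b : ℚ)| * m ≤ 2 * (D : ℚ) ^ 2 * C1 * P * qe := by
    have h13 : (b : ℚ) * m = (D : ℚ) ^ 2 * (((C1 : ℚ) * P) * (e ⬝ᵥ (Q *ᵥ u))) := by
      rw [h2, hbq]
      ring
    calc |(b : ℚ)| * m = |(b : ℚ) * m| := by rw [abs_mul, abs_of_pos hm0]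
      _ = (D : ℚ) ^ 2 * (((C1 : ℚ) * P) * |e ⬝ᵥ (Q *ᵥ u)|) := by
        rw [h13, abs_mul, abs_mul, abs_of_pos (by positivity), abs_of_pos (by positivity)]
      _ ≤ (D : ℚ) ^ 2 * (((C1 : ℚ) * P) * (2 * qe)) := by gcongr
      _ = _ := by ring
  have hb0 : b = 0 := by
    by_contra hne
    have h14 : (m : ℤ) ≤ |2 * (C1 : ℤ) * b| := by
      refine Int.le_of_dvd (abs_pos.2 ?_) ((dvd_abs _ _).2 h8)
      exact mul_ne_zero (by positivity) hne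
    have h15 : (m : ℚ) ≤ 2 * C1 * |(b : ℚ)| := by
      have h16 : ((m : ℤ) : ℚ) ≤ ((|2 * (C1 : ℤ) * b| : ℤ) : ℚ) := by exact_mod_cast h14
      rw [Int.cast_abs, Int.cast_mul, abs_mul] at h16
      push_cast at h16
      rw [abs_of_pos (by positivity : (0 : ℚ) < 2 * C1)] at h16
      exact h16
    have h17 : (m : ℚ) ^ 2 ≤ 4 * (D : ℚ) ^ 2 * (C1 : ℚ) ^ 2 * qe * P := by
      calc (m : ℚ) ^ 2 = m * m := by ring
        _ ≤ 2 * C1 * |(b : ℚ)| * m := by gcongr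
        _ = 2 * C1 * (|(b : ℚ)| * m) := by ring
        _ ≤ 2 * C1 * (2 * (D : ℚ) ^ 2 * C1 * P * qe) := by gcongr
        _ = _ := by ring
    have h18 : ((⌈4 * (D : ℚ) ^ 2 * (C1 : ℚ) ^ 2 * qe⌉₊ + 1 : ℕ) : ℚ) * P < (m : ℚ) ^ 2 := by
      exact_mod_cast hC
    have h19 : 4 * (D : ℚ) ^ 2 * (C1 : ℚ) ^ 2 * qe ≤
        ((⌈4 * (D : ℚ) ^ 2 * (C1 : ℚ) ^ 2 * qe⌉₊ + 1 : ℕ) : ℚ) := by
      push_cast
      have := Nat.le_ceil (4 * (D : ℚ) ^ 2 * (C1 : ℚ) ^ 2 * qe)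
      linarith
    have h20 := mul_le_mul_of_nonneg_right h19 hP0.le
    linarith
  -- the end
  have h21 : e ⬝ᵥ (Q *ᵥ W) = 0 := by
    rw [hb0, Int.cast_zero] at hbq
    exact (mul_eq_zero.1 hbq.symm).resolve_left (by positivity)
  have h22 : W ⬝ᵥ (Q *ᵥ W) = 0 := by
    rw [h21, mul_zero, zero_add] at h4
    exact (mul_eq_zero.1 h4).resolve_left hm0.ne'
  have h23 : W = 0 := (NBq_pos hQ W).2 h22
  have h24 : u = 0 := by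
    rw [h23, smul_zero] at huW
    exact (smul_eq_zero.1 huW).resolve_left (by positivity)
  rw [hve, h24, add_zero]

end Pool.Agent.GP
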