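import Pool.Agent.Lib.GP.DL.Spec

set_option autoImplicit false

open IsDedekindDomain Matrix MeasureTheory

noncomputable section

namespace Pool.Agent.GP

private lemma NBv_valZ (v : HeightOneSpectrum ℤ) (c : ℤ) :
    Valued.v (c : v.adicCompletion ℚ) = v.intValuation c := by
  have h1 : (c : v.adicCompletion ℚ) = algebraMap ℚ (v.adicCompletion ℚ) (c : ℚ) :=
    (map_intCast _ _).symm
  have h2 : Valued.v (algebraMap ℚ (v.adicCompletion ℚ) (c : ℚ)) = v.valuation ℚ (c : ℚ) :=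
    HeightOneSpectrum.valuedAdicCompletion_eq_valuation' v (c : ℚ)
  rw [h1, h2]
  exact v.valuation_of_algebraMap (K := ℚ) c

/-- A natural number prime to `p` is a unit at `p`. -/
private lemma NBv_unit (p : Nat.Primes) {m : ℕ} (hm : ¬ (p : ℕ) ∣ m) :
    Valued.v ((m : ℕ) : (vp p).adicCompletion ℚ) = 1 := by
  have h0 : ((m : ℕ) : (vp p).adicCompletion ℚ) = ((m : ℤ) : (vp p).adicCompletion ℚ) := by
    push_cast; rfl
  rw [h0, NBv_valZ]
  refine le_antisymm ((vp p).intValuation_le_one _) (not_lt.1 fun h => hm ?_)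
  rw [HeightOneSpectrum.intValuation_lt_one_iff_dvd] at h
  have h1 : (m : ℤ) ∈ (vp p).asIdeal := by
    rw [← Ideal.span_singleton_le_iff_mem]
    exact Ideal.le_of_dvd h
  have h2 : (m : ℤ) ∈ Ideal.span {((p : ℕ) : ℤ)} := h1
  rw [Ideal.mem_span_singleton] at h2
  exact_mod_cast h2

/-- The adele `x` is in `m Zh`. -/
private def NBv_mZ (m : ℕ) (x : Af) : Prop := ∃ z ∈ Zh, x = (m : Af) * z

private lemma NBv_add {m : ℕ} {x y : Af} (hx : NBv_mZ m x) (hy : NBv_mZ m y) :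
    NBv_mZ m (x + y) := by
  obtain ⟨z, hz, rfl⟩ := hx
  obtain ⟨w, hw, rfl⟩ := hy
  exact ⟨z + w, Zh.add_mem hz hw, by ring⟩

private lemma NBv_mul {m : ℕ} {x c : Af} (hc : c ∈ Zh) (hx : NBv_mZ m x) :
    NBv_mZ m (c * x) := by
  obtain ⟨z, hz, rfl⟩ := hx
  exact ⟨c * z, Zh.mul_mem hc hz, by ring⟩

private lemma NBv_sum {m n : ℕ} (f : Fin n → Af) (h : ∀ j, NBv_mZ m (f j)) :
    NBv_mZ m (∑ j, f j) := by
  choose z hz hf using h
  refine ⟨∑ j, z j, Zh.sum_mem fun j _ => hz j, ?_⟩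
  rw [Finset.mul_sum]
  exact Finset.sum_congr rfl fun j _ => hf j

private lemma NBv_inv {m : ℕ} (hm0 : m ≠ 0) : (m : Af) * algebraMap ℚ Af (m : ℚ)⁻¹ = 1 := by
  have h1 : (m : Af) = algebraMap ℚ Af (m : ℚ) := (map_natCast _ _).symm
  rw [h1, ← map_mul, mul_inv_cancel₀ (by exact_mod_cast hm0), map_one]

/-- An integral adele supported at `p` is in `m Zh` if `p` does not divide `m`. -/
private lemma NBv_loc (p : Nat.Primes) {m : ℕ} (hm : ¬ (p : ℕ) ∣ m) (x : Af) (hx : x ∈ Zh)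
    (h0 : ∀ v : HeightOneSpectrum ℤ, v ≠ vp p → ev v x = 0) : NBv_mZ m x := by
  have hm0 : m ≠ 0 := fun h => hm (h ▸ dvd_zero _)
  refine ⟨x * algebraMap ℚ Af (m : ℚ)⁻¹, ?_, ?_⟩
  · intro v
    have e0 : (x * algebraMap ℚ Af (m : ℚ)⁻¹) v = ev v x * ev v (algebraMap ℚ Af (m : ℚ)⁻¹) := by
      rw [← map_mul]; rfl
    rw [e0]
    by_cases hv : v = vp p
    · subst hv
      have h2 : ev (vp p) (algebraMap ℚ Af (m : ℚ)⁻¹) =
          (((m : ℕ) : (vp p).adicCompletion ℚ))⁻¹ := by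
        have h3 : ev (vp p) (algebraMap ℚ Af (m : ℚ)⁻¹) =
            algebraMap ℚ ((vp p).adicCompletion ℚ) (m : ℚ)⁻¹ := rfl
        rw [h3, map_inv₀, map_natCast]
      rw [h2, HeightOneSpectrum.mem_adicCompletionIntegers, map_mul, map_inv₀,
        NBv_unit p hm, inv_one, mul_one]
      exact hx (vp p)
    · rw [h0 v hv, zero_mul]
      exact Subring.zero_mem _
  · linear_combination -x * NBv_inv hm0

private lemma NBv_y {N : ℕ} {Q : Matrix (Fin N) (Fin N) ℚ} (e : Fin N → ℚ) (D : ℕ) (d : Fin N → ℤ)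
    (hd : ∀ i, (D : ℚ) * e i = d i) (p : Nat.Primes) {m : ℕ} (hm : ¬ (p : ℕ) ∣ m)
    (y : Gp Q Af) (hy : y ∈ Nb Q p) (i : Fin N) :
    NBv_mZ m ((D : Af) * ((p : ℕ) : Af) * ((y.1.1 *ᵥ ve e Af) i - ve e Af i)) := by
  have hde : ∀ j, (D : Af) * ve e Af j = (d j : Af) := by
    intro j
    have h1 : (D : Af) * ve e Af j = algebraMap ℚ Af ((D : ℚ) * e j) := by
      rw [map_mul, map_natCast]; rfl
    rw [h1, hd, map_intCast]
  apply NBv_loc p hm
  · have e1 : (D : Af) * ((p : ℕ) : Af) * ((y.1.1 *ᵥ ve e Af) i - ve e Af i) =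
        ∑ j, (((p : ℕ) : Af) * y.1.1 i j) * (d j : Af) - ((p : ℕ) : Af) * (d i : Af) := by
      rw [← hde i, mul_sub]
      have e2 : (D : Af) * ((p : ℕ) : Af) * (y.1.1 *ᵥ ve e Af) i =
          ∑ j, (((p : ℕ) : Af) * y.1.1 i j) * (d j : Af) := by
        rw [Matrix.mulVec, dotProduct, Finset.mul_sum]
        refine Finset.sum_congr rfl fun j _ => ?_
        rw [← hde j]; ring
      rw [e2]; ring
    rw [e1]
    refine Zh.sub_mem (Zh.sum_mem fun j _ => Zh.mul_mem (hy.2.1 i j) (intCast_mem Zh (d j))) ?_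
    exact Zh.mul_mem (natCast_mem Zh _) (intCast_mem Zh _)
  · intro v hv
    have h1 : ev v ((y.1.1 *ᵥ ve e Af) i - ve e Af i) = 0 := by
      rw [map_sub, Matrix.mulVec, dotProduct, map_sum]
      have h2 : ∀ j, ev v (y.1.1 i j * ve e Af j) = (if i = j then ev v (ve e Af j) else 0) := by
        intro j
        have h3 : ev v (y.1.1 i j) = (1 : Matrix (Fin N) (Fin N) (v.adicCompletion ℚ)) i j := by
          have h4 : (evG Q v y).1 i j = (1 : Matrix (Fin N) (Fin N) (v.adicCompletion ℚ)) i j := by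
            rw [hy.1 v hv]; rfl
          exact h4
        rw [map_mul, h3, Matrix.one_apply]
        split_ifs <;> simp
      simp only [h2, Finset.sum_ite_eq, Finset.mem_univ, if_true, sub_self]
    rw [map_mul, h1, mul_zero]

theorem tNBv : S_NBv := by
  intro hAD2 N Q e M hM
  obtain ⟨D, hD, d, hd⟩ : ∃ D : ℕ, 0 < D ∧ ∃ d : Fin N → ℤ, ∀ i, (D : ℚ) * e i = d i := by
    refine ⟨∏ i, (e i).den, Finset.prod_pos fun i _ => (e i).den_pos,
      fun i => (e i).num * ∏ j ∈ Finset.univ.erase i, ((e j).den : ℤ), fun i => ?_⟩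
    rw [← Finset.mul_prod_erase Finset.univ _ (Finset.mem_univ i)]
    push_cast
    have h1 := Rat.mul_den_eq_num (e i)
    linear_combination (∏ j ∈ Finset.univ.erase i, ((e j).den : ℚ)) * h1
  refine ⟨M ^ 2 * D, by positivity, ?_⟩
  intro m p p' hpm hpm' y hy y' hy' h hh h' hh' hMh' k hMk hke γ hγ
  have hm0 : m ≠ 0 := fun h0 => hpm (h0 ▸ dvd_zero _)
  choose z hz hkz using hke
  set E : Fin N → Af := ve e Af with hE
  have hhE : h.1.1 *ᵥ E = E := hh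
  have hhE' : h'.1.1 *ᵥ E = E := hh'
  have hvec : (jG Q Af γ).1.1 *ᵥ E =
      h'.1.1 *ᵥ (y'.1.1 *ᵥ (k.1.1 *ᵥ (y.1.1 *ᵥ E))) := by
    rw [hγ]
    have h1 : (h' * y' * k * y * h).1.1 = h'.1.1 * y'.1.1 * k.1.1 * y.1.1 * h.1.1 := rfl
    rw [h1, ← Matrix.mulVec_mulVec, hhE, ← Matrix.mulVec_mulVec, ← Matrix.mulVec_mulVec,
      ← Matrix.mulVec_mulVec]
  set a : Fin N → Af := y.1.1 *ᵥ E - E with ha
  set a' : Fin N → Af := y'.1.1 *ᵥ E - E with ha'
  have e1 : k.1.1 *ᵥ (y.1.1 *ᵥ E) = E + (m : Af) • z + k.1.1 *ᵥ a := by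
    have h1 : y.1.1 *ᵥ E = E + a := by rw [ha]; abel
    have h2 : k.1.1 *ᵥ E = E + (m : Af) • z := by
      funext i
      rw [hkz i]
      rfl
    rw [h1, Matrix.mulVec_add, h2]
  set b : Fin N → Af := a' + (m : Af) • (y'.1.1 *ᵥ z) + y'.1.1 *ᵥ (k.1.1 *ᵥ a) with hb
  have e2 : y'.1.1 *ᵥ (k.1.1 *ᵥ (y.1.1 *ᵥ E)) = E + b := by
    have h1 : y'.1.1 *ᵥ E = E + a' := by rw [ha']; abel
    rw [e1, Matrix.mulVec_add, Matrix.mulVec_add, h1, Matrix.mulVec_smul, hb]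
    abel
  have e3 : (jG Q Af γ).1.1 *ᵥ E - E = h'.1.1 *ᵥ b := by
    rw [hvec, e2, Matrix.mulVec_add, hhE']
    abel
  have hA : ∀ r, NBv_mZ m ((D : Af) * ((p : ℕ) : Af) * a r) := fun r =>
    NBv_y e D d hd p hpm y hy r
  have hA' : ∀ r, NBv_mZ m ((D : Af) * ((p' : ℕ) : Af) * a' r) := fun r =>
    NBv_y e D d hd p' hpm' y' hy' r
  have hB : ∀ j, NBv_mZ m ((M : Af) * (D : Af) * ((p : ℕ) : Af) * ((p' : ℕ) : Af) * b j) := by
    intro j
    have h1 : (M : Af) * (D : Af) * ((p : ℕ) : Af) * ((p' : ℕ) : Af) * b j =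
        ((M : Af) * ((p : ℕ) : Af)) * ((D : Af) * ((p' : ℕ) : Af) * a' j) +
        ((M : Af) * (D : Af) * ((p : ℕ) : Af)) * (∑ l, (((p' : ℕ) : Af) * y'.1.1 j l) * ((m : Af) * z l)) +
        ∑ l, (((p' : ℕ) : Af) * y'.1.1 j l) *
          (∑ r, ((M : Af) * k.1.1 l r) * ((D : Af) * ((p : ℕ) : Af) * a r)) := by
      have h2 : b j = a' j + (m : Af) * (∑ l, y'.1.1 j l * z l) +
          ∑ l, y'.1.1 j l * (∑ r, k.1.1 l r * a r) := rfl
      have h3 : ((M : Af) * (D : Af) * ((p : ℕ) : Af)) * (∑ l, (((p' : ℕ) : Af) * y'.1.1 j l) * ((m : Af) * z l))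
          = (M : Af) * (D : Af) * ((p : ℕ) : Af) * ((p' : ℕ) : Af) * ((m : Af) * (∑ l, y'.1.1 j l * z l)) := by
        rw [Finset.mul_sum, Finset.mul_sum, Finset.mul_sum]
        exact Finset.sum_congr rfl fun l _ => by ring
      have h4 : ∑ l, (((p' : ℕ) : Af) * y'.1.1 j l) *
          (∑ r, ((M : Af) * k.1.1 l r) * ((D : Af) * ((p : ℕ) : Af) * a r)) =
          (M : Af) * (D : Af) * ((p : ℕ) : Af) * ((p' : ℕ) : Af) *
            ∑ l, y'.1.1 j l * (∑ r, k.1.1 l r * a r) := by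
        rw [Finset.mul_sum]
        refine Finset.sum_congr rfl fun l _ => ?_
        rw [Finset.mul_sum, Finset.mul_sum, Finset.mul_sum]
        exact Finset.sum_congr rfl fun r _ => by ring
      rw [h2, h3, h4]
      ring
    rw [h1]
    refine NBv_add (NBv_add (NBv_mul (Zh.mul_mem (natCast_mem Zh _) (natCast_mem Zh _)) (hA' j)) ?_) ?_
    · refine NBv_mul (Zh.mul_mem (Zh.mul_mem (natCast_mem Zh _) (natCast_mem Zh _)) (natCast_mem Zh _))
        (NBv_sum _ fun l => NBv_mul (hy'.2.1 j l) ⟨z l, hz l, rfl⟩)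
    · exact NBv_sum _ fun l => NBv_mul (hy'.2.1 j l) (NBv_sum _ fun r => NBv_mul (hMk l r) (hA r))
  have hfin : ∀ i, NBv_mZ m (((M : Af) ^ 2 * (D : Af) * (((p : ℕ) : Af) * ((p' : ℕ) : Af))) *
      (((jG Q Af γ).1.1 *ᵥ E) i - E i)) := by
    intro i
    have h1 : ((jG Q Af γ).1.1 *ᵥ E) i - E i = ∑ j, h'.1.1 i j * b j := congrFun e3 i
    have h2 : ((M : Af) ^ 2 * (D : Af) * (((p : ℕ) : Af) * ((p' : ℕ) : Af))) *
        (∑ j, h'.1.1 i j * b j) = ∑ j, ((M : Af) * h'.1.1 i j) *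
          ((M : Af) * (D : Af) * ((p : ℕ) : Af) * ((p' : ℕ) : Af) * b j) := by
      rw [Finset.mul_sum]
      exact Finset.sum_congr rfl fun j _ => by ring
    rw [h1, h2]
    exact NBv_sum _ fun j => NBv_mul (hMh' i j) (hB j)
  have hint : ∀ i, ∃ w : ℤ, ((M ^ 2 * D * ((p : ℕ) * (p' : ℕ)) : ℕ) : ℚ) *
      ((γ.1.1 *ᵥ ve e ℚ) i - e i) = (m : ℚ) * (w : ℚ) := by
    intro i
    obtain ⟨w, hw, hwe⟩ := hfin i
    have h1 : ((jG Q Af γ).1.1 *ᵥ E) i = algebraMap ℚ Af ((γ.1.1 *ᵥ ve e ℚ) i) :=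
      congrFun (jG_ve Q e Af γ) i
    have h2 : ((M : Af) ^ 2 * (D : Af) * (((p : ℕ) : Af) * ((p' : ℕ) : Af))) *
        (((jG Q Af γ).1.1 *ᵥ E) i - E i) =
        algebraMap ℚ Af (((M ^ 2 * D * ((p : ℕ) * (p' : ℕ)) : ℕ) : ℚ) *
          ((γ.1.1 *ᵥ ve e ℚ) i - e i)) := by
      rw [h1, map_mul, map_sub, map_natCast]
      push_cast
      rfl
    rw [h2] at hwe
    have h3 : algebraMap ℚ Af ((m : ℚ)⁻¹ * (((M ^ 2 * D * ((p : ℕ) * (p' : ℕ)) : ℕ) : ℚ) *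
        ((γ.1.1 *ᵥ ve e ℚ) i - e i))) = w := by
      rw [map_mul, hwe]
      linear_combination w * NBv_inv hm0
    obtain ⟨w', hw'⟩ := hAD2 _ (by rw [h3]; exact hw)
    refine ⟨w', ?_⟩
    rw [← hw', mul_inv_cancel_left₀ (by exact_mod_cast hm0)]
  choose w hw using hint
  exact ⟨w, hw⟩

end Pool.Agent.GP
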