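import Pool.Agent.Lib.GP.DL.Spec

set_option autoImplicit false

open IsDedekindDomain Matrix MeasureTheory

noncomputable section

namespace Pool.Agent.GP

private theorem PrC_card (p0 m X : ℕ) (hm : m ≠ 0) :
    Nat.primeCounting X ≤
      ((Finset.range (X + 1)).filter fun p => p.Prime ∧ p0 < p ∧ ¬ p ∣ m).card + (p0 + 1) +
        m.primeFactors.card := by
  have h1 : Nat.primeCounting X = ((Finset.range (X + 1)).filter fun p => p.Prime).card := by
    rw [Nat.primeCounting, Nat.primeCounting', Nat.count_eq_card_filter_range]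
  rw [h1]
  have h2 : ((Finset.range (X + 1)).filter fun p => p.Prime) ⊆
      (((Finset.range (X + 1)).filter fun p => p.Prime ∧ p0 < p ∧ ¬ p ∣ m) ∪ Finset.range (p0 + 1)) ∪
        m.primeFactors := by
    intro p hp
    rw [Finset.mem_filter] at hp
    rw [Finset.mem_union, Finset.mem_union, Finset.mem_filter]
    by_cases h : p0 < p
    · by_cases h' : p ∣ m
      · exact Or.inr (Nat.mem_primeFactors.2 ⟨hp.2, h', hm⟩)
      · exact Or.inl (Or.inl ⟨hp.1, hp.2, h, h'⟩)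
    · exact Or.inl (Or.inr (Finset.mem_range.2 (by omega)))
  refine (Finset.card_le_card h2).trans ((Finset.card_union_le _ _).trans ?_)
  refine Nat.add_le_add_right ((Finset.card_union_le _ _).trans ?_) _
  rw [Finset.card_range]

private theorem PrC_omega (m : ℕ) (hm : m ≠ 0) : 2 ^ m.primeFactors.card ≤ m := by
  calc 2 ^ m.primeFactors.card = ∏ _p ∈ m.primeFactors, 2 := by rw [Finset.prod_const]
    _ ≤ ∏ p ∈ m.primeFactors, p := Finset.prod_le_prod (fun _ _ => Nat.zero_le _)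
        fun p hp => (Nat.prime_of_mem_primeFactors hp).two_le
    _ ≤ m := Nat.le_of_dvd (Nat.pos_of_ne_zero hm) (Nat.prod_primeFactors_dvd m)

theorem tPrC : S_PrC := by
  intro p0 C hC
  have hCr : (1 : ℝ) ≤ C := by exact_mod_cast hC
  have hC0 : (0 : ℝ) < C := by linarith
  refine ⟨(C * (89 + 12 * (p0 + 1))) ^ 4 + 2, 1 / (3 * C), by omega, by positivity, fun m hm => ?_⟩
  set c : ℝ := (p0 : ℝ) + 1 with hc
  have hc0 : 1 ≤ c := by rw [hc]; have : (0 : ℝ) ≤ p0 := Nat.cast_nonneg _; linarith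
  have hm2 : 2 ≤ m := by omega
  have hmr2 : (2 : ℝ) ≤ m := by exact_mod_cast hm2
  have hm0 : m ≠ 0 := by omega
  have hmr : ((C : ℝ) * (89 + 12 * c)) ^ 4 ≤ (m : ℝ) := by
    have h : (((C * (89 + 12 * (p0 + 1))) ^ 4 : ℕ) : ℝ) ≤ (m : ℝ) := by
      exact_mod_cast le_trans (Nat.le_add_right _ 2) hm
    push_cast at h
    exact h
  have hX0 : (0 : ℝ) ≤ m := by linarith
  set y : ℝ := (m : ℝ) ^ (1 / 4 : ℝ) with hy
  have hy0 : 0 ≤ y := Real.rpow_nonneg hX0 _
  have hy4 : y ^ 4 = m := by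
    rw [hy, ← Real.rpow_natCast, ← Real.rpow_mul hX0]
    norm_num
  have hyc : (C : ℝ) * (89 + 12 * c) ≤ y := by
    have h : ((C : ℝ) * (89 + 12 * c)) ^ 4 ≤ y ^ 4 := by rw [hy4]; exact hmr
    exact le_of_pow_le_pow_left₀ (by norm_num) hy0 h
  have hy1 : 1 ≤ y := by
    refine le_trans ?_ hyc
    have : (1 : ℝ) ≤ 89 + 12 * c := by linarith
    calc (1 : ℝ) = 1 * 1 := by ring
      _ ≤ C * (89 + 12 * c) := mul_le_mul hCr this (by norm_num) (by linarith)
  -- the logarithms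
  have hlog : Real.log m ≤ 4 * y := by
    have h := Real.log_le_rpow_div hX0 (show (0 : ℝ) < 1 / 4 by norm_num)
    rw [← hy] at h
    linarith
  have hlogp : 0 < Real.log m := Real.log_pos (by linarith)
  have hlog1 : Real.log (m + 1) ≤ 4 * y + 1 := by
    have h1 : Real.log (m + 1) ≤ Real.log (2 * m) := Real.log_le_log (by linarith) (by linarith)
    rw [Real.log_mul (by norm_num) (by linarith)] at h1
    have h2 := Real.log_two_lt_d9
    linarith
  have hl2 : (2 / 3 : ℝ) ≤ Real.log 2 := by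
    have := Real.log_two_gt_d9
    linarith
  obtain ⟨X, hX⟩ : ∃ X : ℕ, X = m / C := ⟨_, rfl⟩
  rw [← hX]
  have hXm : X ≤ m := by rw [hX]; exact Nat.div_le_self m C
  have hXmr : (X : ℝ) ≤ m := by exact_mod_cast hXm
  have hXge : (m : ℝ) / C - 1 ≤ X := by
    have h : (m : ℝ) / C < (X : ℝ) + 1 := by
      rw [hX, div_lt_iff₀ hC0]
      have h1 : m < (m / C + 1) * C := by
        have := Nat.div_add_mod m C
        have h2 := Nat.mod_lt m hC
        nlinarith
      exact_mod_cast h1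
    linarith
  have hpsi := Chebyshev.psi_ge X
  have hpi := Chebyshev.psi_le_primeCounting_mul_log X
  have hlogX : Real.log X ≤ Real.log m := by
    rcases Nat.eq_zero_or_pos X with h0 | h0
    · rw [h0, Nat.cast_zero, Real.log_zero]
      exact hlogp.le
    · exact Real.log_le_log (by exact_mod_cast h0) hXmr
  have hlogX1 : Real.log (X + 1) ≤ 4 * y + 1 := by
    refine le_trans (Real.log_le_log ?_ (by linarith)) hlog1
    have : (0 : ℝ) ≤ X := Nat.cast_nonneg _
    linarith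
  obtain ⟨π, hπ⟩ : ∃ π : ℝ, π = (Nat.primeCounting X : ℝ) := ⟨_, rfl⟩
  have hπ0 : 0 ≤ π := by rw [hπ]; exact Nat.cast_nonneg _
  have h1 : ((m : ℝ) / C - 1) * (2 / 3) - (4 * y + 1) ≤ π * Real.log m := by
    have h2 : ((m : ℝ) / C - 1) * (2 / 3) ≤ X * Real.log 2 := by
      calc ((m : ℝ) / C - 1) * (2 / 3) ≤ X * (2 / 3) :=
            mul_le_mul_of_nonneg_right hXge (by norm_num)
        _ ≤ X * Real.log 2 := mul_le_mul_of_nonneg_left hl2 (Nat.cast_nonneg _)
    have h3 : (Nat.primeCounting X : ℝ) * Real.log X ≤ π * Real.log m := by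
      rw [hπ]
      exact mul_le_mul_of_nonneg_left hlogX (Nat.cast_nonneg _)
    linarith
  obtain ⟨w, hw⟩ : ∃ w : ℝ, w = (m.primeFactors.card : ℝ) := ⟨_, rfl⟩
  have hw0 : 0 ≤ w := by rw [hw]; exact Nat.cast_nonneg _
  have hw6 : w ≤ 6 * y := by
    have h2 : (2 : ℝ) ^ m.primeFactors.card ≤ m := by exact_mod_cast PrC_omega m hm0
    have h3 : Real.log ((2 : ℝ) ^ m.primeFactors.card) ≤ Real.log m :=
      Real.log_le_log (by positivity) h2
    rw [Real.log_pow, ← hw] at h3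
    have h4 : w * (2 / 3) ≤ w * Real.log 2 := mul_le_mul_of_nonneg_left hl2 hw0
    linarith
  obtain ⟨K, hK⟩ : ∃ K : ℝ, K = ((((Finset.range (X + 1)).filter fun p =>
    p.Prime ∧ p0 < p ∧ ¬ p ∣ m).card : ℕ) : ℝ) := ⟨_, rfl⟩
  have h7 : π ≤ K + c + w := by
    rw [hπ, hK, hc, hw]
    exact_mod_cast PrC_card p0 m X hm0
  rw [← hK]
  have h8 : π * Real.log m ≤ (K + c + w) * Real.log m := mul_le_mul_of_nonneg_right h7 hlogp.le
  have h9 : (c + w) * Real.log m ≤ (c + 6 * y) * (4 * y) :=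
    mul_le_mul (by linarith) hlog hlogp.le (by positivity)
  have h10 : ((m : ℝ) / C - 1) * (2 / 3) - (4 * y + 1) - (c + 6 * y) * (4 * y) ≤
      K * Real.log m := by
    nlinarith
  have h11 : (C : ℝ) * (5 + 12 * y + 12 * c * y + 72 * y ^ 2) ≤ m := by
    have e1 : 5 + 12 * y + 12 * c * y + 72 * y ^ 2 ≤ (89 + 12 * c) * y ^ 2 := by
      nlinarith [mul_nonneg hy0 (sub_nonneg.2 hy1), mul_nonneg (by linarith : (0 : ℝ) ≤ c)
        (mul_nonneg hy0 (sub_nonneg.2 hy1))]
    calc (C : ℝ) * (5 + 12 * y + 12 * c * y + 72 * y ^ 2) ≤ C * ((89 + 12 * c) * y ^ 2) :=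
          mul_le_mul_of_nonneg_left e1 hC0.le
      _ = (C * (89 + 12 * c)) * y ^ 2 := by ring
      _ ≤ y * y ^ 2 := mul_le_mul_of_nonneg_right hyc (by positivity)
      _ = y ^ 3 := by ring
      _ ≤ y ^ 4 := pow_le_pow_right₀ hy1 (by norm_num)
      _ = m := hy4
  have h12 : 5 + 12 * y + 12 * c * y + 72 * y ^ 2 ≤ (m : ℝ) / C := by
    rw [le_div_iff₀ hC0, mul_comm]
    exact h11
  have h13 : 1 / (3 * (C : ℝ)) * m = (m : ℝ) / C * (1 / 3) := by
    field_simp
  rw [div_le_iff₀ hlogp, h13]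
  refine le_trans ?_ h10
  nlinarith

end Pool.Agent.GP
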