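import Pool.Agent.Lib.GP.Base
import Pool.Agent.Lib.GP.Hk1
import Pool.Agent.Lib.GP.HkS
import Pool.Agent.Lib.GP.Eig
import Pool.Agent.Lib.GP.BF2
import Pool.Agent.Lib.GP.Int
import Pool.Agent.Lib.GP.Ind
import Pool.Agent.Lib.GP.LT
import Pool.Agent.Lib.GP.Gdx
import Pool.Agent.Lib.GP.Cmp
import Pool.Agent.Lib.GP.Mn
import Pool.Agent.Lib.GP.NbI
import Pool.Agent.Lib.GP.NbK
import Pool.Agent.Lib.GP.NbF
import Pool.Agent.Lib.GP.Vec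
import Pool.Agent.Lib.GP.Rf
import Pool.Agent.Lib.GP.NbE
import Pool.Agent.Lib.GP.NbH
import Pool.Agent.Lib.GP.DpI
import Pool.Agent.Lib.GP.DL.NBq
import Pool.Agent.Lib.GP.DL.NBv
import Pool.Agent.Lib.GP.DL.NB
import Pool.Agent.Lib.GP.DL.PrC
import Pool.Agent.Lib.GP.DL.GdT
import Pool.Agent.Lib.GP.DL.Fin

/-!
# The theorem GPD (helper31, team)
-/

set_option autoImplicit false

open IsDedekindDomain Matrix MeasureTheory

namespace Pool.Agent.GP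

/-- **GPD.** -/
theorem gpD : C_GPD := by
  have hHS := tHS
  have hAD1 : C_AD1 := tAD1
  have hAD2 : C_AD2 := tAD2
  have hAD3 : C_AD3 := tAD3 hAD1
  have hAD5 : C_AD5 := tAD5 hAD1
  have hAD6 : C_AD6 := tAD6
  have hGR1 : C_GR1 := tGR1
  have hGR3 : C_GR3 := tGR3 hAD2 hAD5 hGR1
  have hRed : C_Red := tRed tPrm
  have hHer : C_Her := tHer hRed
  have hCN1 : C_CN1 := tCN1 hRed hHer
  have hCN2 : C_CN2 := tCN2 hAD1 hAD2 hAD3
  have hCN3 : C_CN3 := tCN3 hAD2 hCN1 hCN2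
  have hCN4 : C_CN4 := tCN4 hAD2 hAD3 hAD6 tFinV hCN3
  have hNull : C_Null := tNull (tLA hHS) tExp
  have hMn : C_Mn := tMn
  have hCmp : C_Cmp := tCmp
  have hVec : C_Vec := tVec
  have hRf : C_Rf := tRf
  have hNbI : C_NbI := tNbI hMn
  have hNB : C_NB := tNB hAD1 hAD5 hCN4 tNBq (tNBv hAD2)
  exact tGPD tHk1 tHkS tEig (tBF2 tJw) (tInd (tInt hNull)) tLT (tGdx hAD5 hAD6) hNbI
    (tNbK hMn hCmp) (tNbF hAD2 hAD3) (tNbE hVec hRf hCmp hMn) (tNbH hMn hCmp hNbI) tDpI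
    hGR1 hGR3 hCN4 tPrC tGdT hNB

end Pool.Agent.GP
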