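import Pool.Agent.Lib.GP.Spec2

/-!
# Theorem GPD (deep level): the statements of the modules (author helper31)

For a fixed open compact `K0 ⊂ G(Af)` and `m ≥ 1` the levels `K ≤ K0` contain `{k ∈ K0 | k ≡ 1 mod m}` and satisfy `k e ≡ e mod m` for `k ∈ K`.
RULES: `S_X` is to be proved as `theorem tX : S_X` in `Pool/Agent/Lib/GP/DL/X.lean`, first lines `import Pool.Agent.Lib.GP.DL.Spec`, `set_option autoImplicit false`, the `open` line of this file, `noncomputable section`, `namespace Pool.Agent.GP`. Auxiliary declarations `private` or with the prefix `X_`.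
-/

set_option autoImplicit false

open IsDedekindDomain Matrix MeasureTheory

noncomputable section

namespace Pool.Agent.GP

/-- **NBq.** A rational vector `v` of the same norm as `e` which is congruent to `e` modulo `m` with a small denominator prime to `m` is `e`. -/
def C_NBq : Prop :=
  ∀ (N : ℕ) (Q : Matrix (Fin N) (Fin N) ℚ) (e : Fin N → ℚ) (C1 : ℕ), PQ Q → 0 < C1 → ∃ C : ℕ, 0 < C ∧
    ∀ (m P : ℕ) (v : Fin N → ℚ) (w : Fin N → ℤ), 0 < m → 0 < P → Nat.Coprime m P → C * P < m ^ 2 →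
      v ⬝ᵥ (Q *ᵥ v) = e ⬝ᵥ (Q *ᵥ e) → (∀ i, ((C1 * P : ℕ) : ℚ) * (v i - e i) = (m : ℚ) * (w i : ℚ)) → v = e

/-- (90 lines) **NBq.** PROOF. `B(x, y) = xᵀ Q y`, `q(x) = B(x, x)`. `D ≥ 1` an integer with `D Q_ij`, `D e_i` integers (product of all denominators). Let `u = v - e`; `q(v) = q(e)` gives `2 B(e, u) + q(u) = 0`. Multiply by `(C1 P)²`: `2 C1 P m B(e, w) + m² q(w) = 0`, so `2 C1 P B(e, w) = -m q(w)`,
and with the integers `b = D² B(e, w)`, `s = D q(w)`: `2 C1 P b = -m D s`. So `m ∣ 2 C1 P b`, `m ∣ 2 C1 b` (coprime). Positive definite (over `ℝ`, so over `ℚ`: cast): `|B(e, v)| ≤ q(e)` (`q(v + e) ≥ 0`, `q(v - e) ≥ 0`: `2 q(e) ± 2 B(e, v) ≥ 0`), so `|B(e, u)| ≤ 2 q(e)`, `|b| = D² (C1 P/m) |B(e, u)| ≤ 2 D² C1 P q(e)/m`.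
If `b ≠ 0` then `m ≤ 2 C1 |b|` gives `m² ≤ 4 D² C1² q(e) P`: excluded if `C ≥ 4 D² C1² q(e)`. So `b = 0`, `q(w) = 0`, `w = 0`, `v = e`. -/
def S_NBq : Prop := C_NBq

/-- **NBv.** The vector `γ e` is congruent to `e` modulo `m`, with the denominator `C1 p p'`. -/
def C_NBv : Prop :=
  ∀ (N : ℕ) (Q : Matrix (Fin N) (Fin N) ℚ) (e : Fin N → ℚ) (M : ℕ), 0 < M → ∃ C1 : ℕ, 0 < C1 ∧
    ∀ (m : ℕ) (p p' : Nat.Primes), ¬ (p : ℕ) ∣ m → ¬ (p' : ℕ) ∣ m → ∀ y ∈ Nb Q p, ∀ y' ∈ Nb Q p',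
      ∀ h ∈ Hp Q e Af, ∀ h' ∈ Hp Q e Af, (∀ i j, (M : Af) * h'.1.1 i j ∈ Zh) → ∀ k : Gp Q Af,
        (∀ i j, (M : Af) * k.1.1 i j ∈ Zh) →
        (∀ i, ∃ z ∈ Zh, (k.1.1 *ᵥ ve e Af) i = ve e Af i + (m : Af) * z) →
        ∀ γ : Gp Q ℚ, jG Q Af γ = h' * y' * k * y * h →
          ∃ w : Fin N → ℤ, ∀ i, ((C1 * ((p : ℕ) * (p' : ℕ)) : ℕ) : ℚ) * ((γ.1.1 *ᵥ ve e ℚ) i - e i) =
            (m : ℚ) * (w i : ℚ)

/-- (130 lines) **NBv** (from AD2). PROOF. `D ≥ 1` an integer with `D e_i ∈ ℤ`, `C1 = M² D`. In `Af^N`: `γ e = h' y' k y h e = h' y' k y e`. (1) `a = y e - e`: the component at `v ≠ vp p` is `0`, and `D p a = (p y)(D e) - p (D e)` is integral; since `m` is a unit at `vp p` (`¬ p ∣ m`; see `Gdx_unit` in `Pool/Agent/Lib/GP/Gdx.lean`, private, copy it)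
`D p a_i = m a1_i` with `a1_i ∈ Zh` (LEMMA: an adele `x ∈ Zh` with `x_v = 0` for `v ≠ vp p` is in `m Zh` if `¬ p ∣ m`: `z = (1/m) x`, `1/m ∈ ℚ`, its components are integral). In the same way `D p' (y' e - e)_i = m a2_i` with `a2_i ∈ Zh`. (2) `k e = e + m z`, so `k y e = k e + k a = e + m z + k a` and `y' k y e - e = (y' e - e) + m y' z + y' k a`;
`M D p p'` times this is `M p m a2 + m M D p (p' y') z + (p' y')(M k)(D p a)`, in `m Zh^N`. (3) `h' e = e`: `γ e - e = h' (y' k y e - e)`, so `M² D p p' (γ e - e) ∈ m Zh^N`: the rational numbers `M² D p p' (γ e - e)_i/m` are in `Zh`, so integers (AD2). (`jG_ve` in `Defs.lean`: `jG Q Af γ` maps `e` to the image of `γ e`; `m ≠ 0` as `¬ p ∣ m`.) -/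
def S_NBv : Prop := C_AD2 → C_NBv

/-- **PrC.** Many primes not dividing `m`. -/
def C_PrC : Prop :=
  ∀ p0 C : ℕ, 0 < C → ∃ (m0 : ℕ) (c : ℝ), 2 ≤ m0 ∧ 0 < c ∧ ∀ m : ℕ, m0 ≤ m →
    c * m / Real.log m ≤ (((Finset.range (m / C + 1)).filter fun p => p.Prime ∧ p0 < p ∧ ¬ p ∣ m).card : ℝ)

/-- (80 lines) **PrC.** PROOF. `X = m/C` (floor). `π(X) ≤ card + (p0 + 1) + (number of the prime factors of m)`, at most `log m/log 2` prime factors (`2^ω ≤ m`: `Nat.card_primeFactors_le_log2` or similar, or `∏ primeFactors ∣ m`, `Finset.pow_card_le_prod`). `Chebyshev.pi_ge`: `(X log 2 - log (X + 1))/log X ≤ π(X)`; for `m ≥ m0`: `2 ≤ X`,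
`X ≥ m/(2 C)`, `log X ≤ log m`. So `card ≥ ((m/(2 C)) log 2 - log (m + 1))/log m - p0 - 1 - log m/log 2`, which is `≥ c m/log m` with `c = log 2/(4 C)` as soon as `(m/(4 C)) log 2 ≥ log (m + 1) + (p0 + 1) log m + (log m)²/log 2`, true for large `m` (`isLittleO_log_id_atTop`, `Real.isLittleO_pow_log_id_atTop`, or `log m ≤ 4 m^(1/4)`: see `Pool/Agent/Lib/GP/Pr.lean`). -/
def S_PrC : Prop := C_PrC

/-- **GdT.** Good primes for the levels `K ≤ K0`. -/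
def C_GdT : Prop :=
  ∀ (N : ℕ) (Q : Matrix (Fin N) (Fin N) ℚ) (e : Fin N → ℚ) (K0 K : Subgroup (Gp Q Af)) (m : ℕ) (p : Nat.Primes),
    Gd Q e K0 p → ¬ (p : ℕ) ∣ m → K ≤ K0 →
    (∀ k ∈ K0, (∀ i j, ∃ z ∈ Zh, k.1.1 i j = (1 : Matrix (Fin N) (Fin N) Af) i j + (m : Af) * z) → k ∈ K) →
      Gd Q e K p

/-- (60 lines) **GdT.** PROOF. `odd`, `q1`, `q2`, `e1`, `e2` are clear, `k1` as `K ≤ K0`. `k2`: `y ∈ Loc Q p` with integral entries is in `K0` by `k2` for `K0`; `y_ij - 1_ij = m z_ij` with `z_ij = (1/m)(y_ij - 1_ij)` (`1/m ∈ ℚ`, `m ≠ 0`), the components of `z_ij` are `0` outside `vp p` and integral at `vp p` (`m` is a unit there; see the proof of `k2` in `Pool/Agent/Lib/GP/Gdx.lean`). -/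
def S_GdT : Prop := C_GdT

/-- **NB.** No `γ` of a transporter moves `e`, if `C p p' < m²`. -/
def C_NB : Prop :=
  ∀ (N : ℕ) (Q : Matrix (Fin N) (Fin N) ℚ) (e : Fin N → ℚ) (K0 : Subgroup (Gp Q Af)), PQ Q →
    IsOpen (K0 : Set (Gp Q Af)) → IsCompact (K0 : Set (Gp Q Af)) → ∃ C : ℕ, 0 < C ∧
      ∀ (m : ℕ) (K : Subgroup (Gp Q Af)), K ≤ K0 →
        (∀ k ∈ K, ∀ i, ∃ z ∈ Zh, (k.1.1 *ᵥ ve e Af) i = ve e Af i + (m : Af) * z) →
        ∀ p p' : Nat.Primes, ¬ (p : ℕ) ∣ m → ¬ (p' : ℕ) ∣ m → C * ((p : ℕ) * (p' : ℕ)) < m ^ 2 →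
          ∀ y ∈ Nb Q p, y⁻¹ ∈ Nb Q p → ∀ y' ∈ Nb Q p', ∀ h ∈ Hp Q e Af, ∀ h' ∈ Hp Q e Af,
            ∀ γ ∈ tr (jG Q Af) K (h * y) (h' * y'), γ ∈ Hp Q e ℚ

/-- (120 lines) **NB** (from AD1, AD5, CN4, NBq, NBv). PROOF. `H(Af)` is the union of the `H(ℚ) c (K0 ∩ H(Af))` for finitely many `c` (CN4). `M ≥ 1` with `M (c κ)_ij`, `M k_ij ∈ Zh` for these `c` and `κ, k ∈ K0` (AD1, AD5). `k = (h' y')⁻¹ γ h y ∈ K`, `h' = γ1 c κ`; `γ'' = γ1⁻¹ γ` has `jG γ'' = (c κ) y' k y⁻¹ h⁻¹`; NBv, NBq (`v = γ'' e`): `γ'' e = e`, so `γ e = γ1 e = e`. -/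
def S_NB : Prop := C_AD1 → C_AD5 → C_CN4 → C_NBq → C_NBv → C_NB

end Pool.Agent.GP
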